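import Pool.Agent.Lib_helper51.OW.E6b
import Pool.Agent.Lib_helper92.OW.Cs

/-!
# Chains of steps, and no clone sets

A table `T` which is closed under steps and fails in the last step bounds `Y` from below on all
proper subsets.
-/

set_option autoImplicit false
set_option linter.unusedSectionVars false
set_option linter.unusedVariables false

open scoped Classical
open Finset
open Pool.Agent.O2 (PC Cb CrOn pr ms dg nd Joined addE)
open Pool.Agent.O3 (con hit Clq)

namespace Pool.Agent.OW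

variable {V : Type}

/-- a table which is closed under steps bounds `Y` from below -/
theorem chainT {K i : ℕ} {β : ℕ → ℤ} {G : SimpleGraph V} {S : Finset V} {T : ℕ → ℤ} {y : ℤ}
    (hst : Stp G S K β i) (hy : y ≤ Yy G K β S)
    (h1 : ∀ m a s : ℕ, 1 ≤ s → s ≤ K → 1 ≤ a → m + a < S.card - 1 →
      T m ≤ T (m + a) + cst K β s m a)
    (h2 : ∀ m s : ℕ, 1 ≤ s → s ≤ K → m < S.card - 1 →
      T m < y + cst K β s m (S.card - 1 - m) + (if s = 1 then 2 * (i : ℤ) else 0)) :
    ∀ R ⊆ S, R ≠ S → K + 1 ≤ R.card → T (R.card - 1) < Yy G K β R := by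
  by_contra hcon
  push Not at hcon
  obtain ⟨R0, hR0, hne0, hc0, hy0⟩ := hcon
  let P := S.powerset.filter fun R => R ≠ S ∧ K + 1 ≤ R.card ∧ Yy G K β R ≤ T (R.card - 1)
  have hP0 : R0 ∈ P := mem_filter.2 ⟨mem_powerset.2 hR0, hne0, hc0, hy0⟩
  obtain ⟨R, hRP, hmax⟩ := exists_max_image P card ⟨R0, hP0⟩
  obtain ⟨hRS, hne, hc, hyR⟩ := mem_filter.1 hRP
  rw [mem_powerset] at hRS
  obtain ⟨U, s, hRU, hUS, hs1, hsK, hst1, hst2⟩ := hst R hRS hne hc
  have hUR : R.card < U.card := card_lt_card hRU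
  have hU' : U.card ≤ S.card := card_le_card hUS
  by_cases hU : U = S
  · subst hU
    have h3 := h2 (R.card - 1) s hs1 hsK (by omega)
    have e1 : U.card - 1 - (R.card - 1) = U.card - R.card := by omega
    rw [e1] at h3
    by_cases hs : s = 1
    · have h4 := hst2 rfl hs
      rw [if_pos hs] at h3
      subst hs
      linarith
    · rw [if_neg hs] at h3
      linarith
  · have hlt : U.card < S.card := card_lt_card (hUS.ssubset_of_ne hU)
    have h3 := h1 (R.card - 1) (U.card - R.card) s hs1 hsK (by omega) (by omega)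
    have e1 : R.card - 1 + (U.card - R.card) = U.card - 1 := by omega
    rw [e1] at h3
    have h4 : U ∈ P := by
      refine mem_filter.2 ⟨mem_powerset.2 hUS, hU, by omega, ?_⟩
      linarith
    have h5 := hmax U h4
    omega

/-- the clone table is closed under steps, with two to spare -/
theorem clone_table {K : ℕ} {β : ℕ → ℤ}
    (F1 : ∀ m t s : ℕ, 1 ≤ s → s ≤ K → s ≤ t →
      β m + β t + 2 ≤ β (m + t + 1 - s) + (s : ℤ) * ((K : ℤ) + 2 - s))
    {s m a : ℕ} (h1 : 1 ≤ s) (h2 : s ≤ K) (ha : 1 ≤ a) :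
    β (m + 1) - β m + 2 ≤ β (m + a + 1) - β (m + a) + cst K β s m a := by
  have h := F1 (m + 1) (a + s - 1) s h1 h2 (by omega)
  have e : m + 1 + (a + s - 1) + 1 - s = m + a + 1 := by omega
  rw [e] at h
  unfold cst
  linarith

/-- there is no clone set -/
theorem no_clone_set {K i : ℕ} {β : ℕ → ℤ} {G : SimpleGraph V} {S : Finset V}
    (hst : Stp G S K β i) (hY : 2 ≤ Yy G K β S)
    (F1 : ∀ m t s : ℕ, 1 ≤ s → s ≤ K → s ≤ t →
      β m + β t + 2 ≤ β (m + t + 1 - s) + (s : ℤ) * ((K : ℤ) + 2 - s))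
    (F6 : ∀ m s : ℕ, 1 ≤ s → s ≤ K → m < S.card - 1 →
      (K : ℤ) - 1 + β (m + 1) + β (S.card - 1 - m + s - 1) ≤
        β (S.card - 1) + (s : ℤ) * ((K : ℤ) + 2 - s) + (if s = 1 then 2 * (i : ℤ) else 0)) :
    ∀ R ⊆ S, R ≠ S → K + 1 ≤ R.card → β R.card + K - 1 < df G K R := by
  intro R hR hne hc
  have h := chainT (T := fun m => (K : ℤ) - 1 + β (m + 1) - β m) (y := 2) hst hY ?_ ?_ R hR hne hc
  · have e : R.card - 1 + 1 = R.card := by omega
    rw [e] at h
    unfold Yy at h
    linarith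
  · intro m a s h1 h2 ha _
    have := clone_table F1 (m := m) h1 h2 ha
    linarith
  · intro m s h1 h2 hm
    have h3 := F6 m s h1 h2 hm
    have e : m + (S.card - 1 - m) = S.card - 1 := by omega
    unfold cst
    rw [e]
    linarith

/-- the vertices around a low cluster, in the residues where there is no clone set -/
theorem clone_clq {K i : ℕ} {β : ℕ → ℤ} {G : SimpleGraph V} {S C : Finset V} {v x : V}
    (h : Cex G S K β) (hK : 1 ≤ K) (hA : AE G S K i) (hi : 2 * i ≤ K)
    (F1 : ∀ m t s : ℕ, 1 ≤ s → s ≤ K → s ≤ t →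
      β m + β t + 2 ≤ β (m + t + 1 - s) + (s : ℤ) * ((K : ℤ) + 2 - s))
    (F6 : ∀ m s : ℕ, 1 ≤ s → s ≤ K → m < S.card - 1 →
      (K : ℤ) - 1 + β (m + 1) + β (S.card - 1 - m + s - 1) ≤
        β (S.card - 1) + (s : ℤ) * ((K : ℤ) + 2 - s) + (if s = 1 then 2 * (i : ℤ) else 0))
    (hC : C ⊆ S) (hx : x ∈ C) (hlow : dg G S x = K)
    (htw : ∀ c ∈ C, c ≠ x → Tw G S x c) (hv : v ∈ S) (hvC : v ∉ C) (hxv : G.Adj x v)
    (hd : dg G S v + 1 ≤ K + C.card) (hord : dg G S v = K → (tws G S v).card < C.card) :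
    Clq G (cn G S v x) := by
  rcases clone_set h hK hC hx hlow htw hv hvC hxv hd hord with h1 | ⟨R, h1, -, h2, h3, -, -, h4⟩
  · exact h1
  · exfalso
    have hY : 2 ≤ Yy G K β S := by
      have := h.big
      unfold Yy
      linarith
    have h5 := no_clone_set (stp_of_ae hK h.cr h.ih hi hA) hY F1 F6 R
      (h1.trans (erase_subset _ _)) (by rintro rfl; omega) h2
    linarith

/-- a colouring of `R` such that at least `i` edges leave `R` off each class -/
def Gd {K : ℕ} (G : SimpleGraph V) (S R : Finset V) (i : ℕ) (ψ : V → Fin K) : Prop :=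
  PC G R ψ ∧ ∀ c, i ≤ pr G (R.filter fun r => ψ r ≠ c) (S \ R)

theorem gd_exists {K i : ℕ} {G : SimpleGraph V} {S R : Finset V} (hS : CrOn G S K)
    (hA : AE G S K i) (hi : 2 * i ≤ K) (hR : R ⊆ S) (hne : R ≠ S) (hc : 2 ≤ R.card) :
    ∃ ψ : V → Fin K, Gd G S R i ψ :=
  edge_lemma hS (fun F _ hF => hA R hR hne F hF) hi hR hne hc

/-- the clone set in the exceptional case: all steps with a good colouring go to `S` with three
colours, nothing is lost and the piece is tight -/
theorem clone_flex {K i : ℕ} {β : ℕ → ℤ} {G : SimpleGraph V} {S : Finset V}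
    (hK : 0 < K) (hS : CrOn G S K) (hI : IH K β S.card) (hA : AE G S K i) (hi : 2 * i ≤ K)
    (hY : 2 ≤ Yy G K β S)
    (F1 : ∀ m t s : ℕ, 1 ≤ s → s ≤ K → s ≤ t →
      β m + β t + 2 ≤ β (m + t + 1 - s) + (s : ℤ) * ((K : ℤ) + 2 - s))
    (F6 : ∀ m s : ℕ, 1 ≤ s → s ≤ K → m < S.card - 1 → ¬ (m % K = K - 1 ∧ s = 3) →
      (K : ℤ) - 1 + β (m + 1) + β (S.card - 1 - m + s - 1) ≤
        β (S.card - 1) + (s : ℤ) * ((K : ℤ) + 2 - s) + (if s = 1 then 2 * (i : ℤ) else 0))
    (F6' : ∀ m : ℕ, 3 ≤ K → m < S.card - 1 → m % K = K - 1 →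
      (K : ℤ) - 1 + β (m + 1) + β (S.card - 1 - m + 3 - 1) ≤
        β (S.card - 1) + (3 : ℤ) * ((K : ℤ) + 2 - 3) + 2)
    {R : Finset V} (hR : R ⊆ S) (hne : R ≠ S) (hc : K + 1 ≤ R.card)
    (hdf : df G K R ≤ β R.card + K - 1) :
    (R.card - 1) % K = K - 1 ∧ df G K R = β R.card + K - 1 ∧ Yy G K β S = 2 ∧
      ∀ (ψ : V → Fin K) (A : Finset V) (Z : Finset (Fin K)), Gd G S R i ψ →
        Step G S R ψ A Z → R ∪ A = S ∧ Z.card = 3 ∧ gain G R ψ A Z = 0 ∧
          Yy (con G R ψ) K β (A.disjSum Z) = 0 := by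
  -- nothing with two less
  have hno : ∀ U ⊆ S, U ≠ S → K + 1 ≤ U.card →
      (K : ℤ) - 3 + β (U.card - 1 + 1) - β (U.card - 1) < Yy G K β U := by
    intro U hU hUne hUc
    refine chainT (T := fun m => (K : ℤ) - 3 + β (m + 1) - β m) (y := 2)
      (stp_of_ae hK hS hI hi hA) hY ?_ ?_ U hU hUne hUc
    · intro m a s h1 h2 ha _
      have := clone_table F1 (m := m) h1 h2 ha
      linarith
    · intro m s h1 h2 hm
      have e : m + (S.card - 1 - m) = S.card - 1 := by omega
      unfold cst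
      rw [e]
      by_cases h3 : m % K = K - 1 ∧ s = 3
      · obtain ⟨h4, rfl⟩ := h3
        have h5 := F6' m h2 hm h4
        have e3 : S.card - 1 - m + 3 - 1 = S.card - 1 - m + 2 := by omega
        rw [if_neg (by norm_num)]
        rw [e3] at h5
        push_cast
        linarith
      · have h4 := F6 m s h1 h2 hm h3
        linarith
  have e0 : R.card - 1 + 1 = R.card := by omega
  have hyR : Yy G K β R ≤ (K : ℤ) - 1 + β R.card - β (R.card - 1) := by
    unfold Yy
    linarith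
  -- every good step
  have key : ∀ (ψ : V → Fin K) (A : Finset V) (Z : Finset (Fin K)), Gd G S R i ψ →
      Step G S R ψ A Z → R ∪ A = S ∧ Z.card = 3 ∧ gain G R ψ A Z = 0 ∧
        Yy (con G R ψ) K β (A.disjSum Z) = 0 ∧ (R.card - 1) % K = K - 1 ∧
        df G K R = β R.card + K - 1 ∧ Yy G K β S = 2 := by
    intro ψ A Z hg hstp
    have hYe := hstp.Y_eq β (card_pos.1 (by omega))
    have hQ : Yy (con G R ψ) K β (A.disjSum Z) ≤ 0 := by
      have := hI _ _ _ hstp.cr (hstp.Q_lt hc)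
      unfold Yy
      linarith
    have hgn := hstp.gain_nonneg
    have hA1 : 1 ≤ A.card := card_pos.2 hstp.neA
    have hcu := hstp.card_union
    have hU : R ∪ A = S := by
      by_contra hU
      have h1 := hno (R ∪ A) hstp.sub_union hU (by omega)
      have h2 := clone_table F1 (m := R.card - 1) hstp.Z_pos hstp.Z_le hA1
      have e1 : (R ∪ A).card - 1 = R.card - 1 + A.card := by omega
      rw [e1] at h1
      rw [e0] at h2
      linarith
    have hN : S.card - 1 - (R.card - 1) = A.card := by rw [← hU]; omega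
    have hN2 : R.card - 1 + A.card = S.card - 1 := by rw [← hU]; omega
    rw [hU] at hYe
    unfold cst at hYe
    rw [hN2] at hYe
    have hz : (R.card - 1) % K = K - 1 ∧ Z.card = 3 := by
      by_contra hz
      have h1 := F6 (R.card - 1) Z.card hstp.Z_pos hstp.Z_le (by omega) hz
      rw [hN, e0] at h1
      by_cases hs : Z.card = 1
      · obtain ⟨c, hc'⟩ := card_eq_one.1 hs
        have hAS : A = S \ R := by
          apply Subset.antisymm hstp.hA
          intro v hv
          obtain ⟨h3, h4⟩ := mem_sdiff.1 hv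
          rw [← hU] at h3
          rcases mem_union.1 h3 with h5 | h5
          · exact absurd h5 h4
          · exact h5
        have h3 := gain_one G R A ψ c
        have h4 := hg.2 c
        rw [← hAS] at h4
        have h5 : (i : ℤ) ≤ pr G (R.filter fun r => ψ r ≠ c) A := by exact_mod_cast h4
        rw [← hc'] at h3
        rw [if_pos hs] at h1
        linarith
      · rw [if_neg hs] at h1
        linarith
    obtain ⟨hz1, hz2⟩ := hz
    have h1 := F6' (R.card - 1) (by have := hstp.Z_le; omega) (by omega) hz1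
    have e2 : A.card + 3 - 1 = A.card + 2 := by omega
    rw [hN, e0, e2] at h1
    rw [hz2] at hYe
    push_cast at hYe
    have h2 : Yy G K β S + 2 * gain G R ψ A Z ≤
        2 + Yy (con G R ψ) K β (A.disjSum Z) := by linarith
    have h3 : gain G R ψ A Z = 0 := by linarith
    have h4 : Yy (con G R ψ) K β (A.disjSum Z) = 0 := by linarith
    have h5 : Yy G K β S = 2 := by linarith
    refine ⟨hU, hz2, h3, h4, hz1, ?_, h5⟩
    have h6 : (K : ℤ) - 1 + β R.card - β (R.card - 1) ≤ Yy G K β R := by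
      rw [h5, h4, h3] at hYe
      linarith
    unfold Yy at h6
    linarith
  obtain ⟨ψ, hg⟩ := gd_exists hS hA hi hR hne (by omega)
  obtain ⟨A, Z, hstp⟩ := step_exists hK hS hR (card_pos.1 (by omega)) hg.1
  obtain ⟨-, -, -, -, h1, h2, h3⟩ := key ψ A Z hg hstp
  refine ⟨h1, h2, h3, ?_⟩
  intro ψ A Z hg hstp
  obtain ⟨h4, h5, h6, h7, -, -, -⟩ := key ψ A Z hg hstp
  exact ⟨h4, h5, h6, h7⟩

/-- (c1) in the residues where there is no clone set -/
theorem c1_mid {K i : ℕ} {β : ℕ → ℤ} {G : SimpleGraph V} {S : Finset V}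
    (h : Cex G S K β) (hK : 1 ≤ K) (hA : AE G S K i) (hi : 2 * i ≤ K)
    (F1 : ∀ m t s : ℕ, 1 ≤ s → s ≤ K → s ≤ t →
      β m + β t + 2 ≤ β (m + t + 1 - s) + (s : ℤ) * ((K : ℤ) + 2 - s))
    (F6 : ∀ m s : ℕ, 1 ≤ s → s ≤ K → m < S.card - 1 →
      (K : ℤ) - 1 + β (m + 1) + β (S.card - 1 - m + s - 1) ≤
        β (S.card - 1) + (s : ℤ) * ((K : ℤ) + 2 - s) + (if s = 1 then 2 * (i : ℤ) else 0))
    {x v : V} (hx : x ∈ S) (hlow : dg G S x = K) (hv : v ∈ S) (hxv : G.Adj x v)
    (htw : ¬ Tw G S x v) (hd : dg G S v ≤ K + (tws G S x).card)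
    (hord : dg G S v = K → (tws G S v).card ≤ (tws G S x).card) : Clq G (cn G S v x) := by
  have hxt : x ∉ tws G S x := by
    intro h1
    unfold tws at h1
    exact (mem_filter.1 h1).2.1 rfl
  have hcard : (insert x (tws G S x)).card = (tws G S x).card + 1 := card_insert_of_notMem hxt
  refine clone_clq (C := insert x (tws G S x)) h hK hA hi F1 F6 ?_ (mem_insert_self _ _) hlow
    ?_ hv ?_ hxv ?_ ?_
  · intro c hc
    rcases mem_insert.1 hc with rfl | hc
    · exact hx
    · exact (mem_filter.1 hc).1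
  · intro c hc hne
    rcases mem_insert.1 hc with rfl | hc
    · exact absurd rfl hne
    · exact (mem_filter.1 hc).2.2
  · intro hc
    rcases mem_insert.1 hc with rfl | hc
    · exact hxv.ne rfl
    · exact htw (mem_filter.1 hc).2.2
  · omega
  · intro hd'
    have := hord hd'
    omega

/-- the exceptional clone set: `R ∪ {v}` is critical in the clone graph and tight, and `R` is
extended to `S` by a step with three colours without loss -/
structure CFlex (G : SimpleGraph V) (S : Finset V) (K : ℕ) (β : ℕ → ℤ) (i : ℕ) (v x : V)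
    (R : Finset V) : Prop where
  sub : R ⊆ S.erase v
  cn : cn G S v x ⊆ R
  card : K + 1 ≤ R.card
  card' : R.card + 1 < S.card
  cr : CrOn (clo G S v x) (insert v R) K
  dfc : df (clo G S v x) K (insert v R) = df G K R - (K - 1)
  res : (R.card - 1) % K = K - 1
  dfR : df G K R = β R.card + K - 1
  two : Yy G K β S = 2
  step : ∀ (ψ : V → Fin K) (A : Finset V) (Z : Finset (Fin K)), Gd G S R i ψ →
    Step G S R ψ A Z → R ∪ A = S ∧ Z.card = 3 ∧ gain G R ψ A Z = 0 ∧
      Yy (con G R ψ) K β (A.disjSum Z) = 0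

/-- (c1) in the residue `K - 3`: a clique or the exceptional clone set -/
theorem c1_flex {K i : ℕ} {β : ℕ → ℤ} {G : SimpleGraph V} {S : Finset V}
    (h : Cex G S K β) (hK : 1 ≤ K) (hA : AE G S K i) (hi : 2 * i ≤ K)
    (F1 : ∀ m t s : ℕ, 1 ≤ s → s ≤ K → s ≤ t →
      β m + β t + 2 ≤ β (m + t + 1 - s) + (s : ℤ) * ((K : ℤ) + 2 - s))
    (F6 : ∀ m s : ℕ, 1 ≤ s → s ≤ K → m < S.card - 1 → ¬ (m % K = K - 1 ∧ s = 3) →
      (K : ℤ) - 1 + β (m + 1) + β (S.card - 1 - m + s - 1) ≤
        β (S.card - 1) + (s : ℤ) * ((K : ℤ) + 2 - s) + (if s = 1 then 2 * (i : ℤ) else 0))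
    (F6' : ∀ m : ℕ, 3 ≤ K → m < S.card - 1 → m % K = K - 1 →
      (K : ℤ) - 1 + β (m + 1) + β (S.card - 1 - m + 3 - 1) ≤
        β (S.card - 1) + (3 : ℤ) * ((K : ℤ) + 2 - 3) + 2)
    {x v : V} (hx : x ∈ S) (hlow : dg G S x = K) (hv : v ∈ S) (hxv : G.Adj x v)
    (htw : ¬ Tw G S x v) (hd : dg G S v ≤ K + (tws G S x).card)
    (hord : dg G S v = K → (tws G S v).card ≤ (tws G S x).card) :
    Clq G (Pool.Agent.OW.cn G S v x) ∨ ∃ R, CFlex G S K β i v x R := by
  have hxt : x ∉ tws G S x := by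
    intro h1
    unfold tws at h1
    exact (mem_filter.1 h1).2.1 rfl
  have hcard : (insert x (tws G S x)).card = (tws G S x).card + 1 := card_insert_of_notMem hxt
  have hcs := clone_set (C := insert x (tws G S x)) h hK ?_ (mem_insert_self _ _) hlow
    ?_ hv ?_ hxv ?_ ?_
  · rcases hcs with h1 | ⟨R, h1, h2, h3, h4, h5, h6, h7⟩
    · exact Or.inl h1
    · right
      have hY : 2 ≤ Yy G K β S := by
        have := h.big
        unfold Yy
        linarith
      obtain ⟨g1, g2, g3, g4⟩ := clone_flex (by omega) h.cr h.ih hA hi hY F1 F6 F6'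
        (h1.trans (erase_subset _ _)) (by rintro rfl; omega) h3 h7
      exact ⟨R, h1, h2, h3, h4, h5, h6, g1, g2, g3, g4⟩
  · intro c hc
    rcases mem_insert.1 hc with rfl | hc
    · exact hx
    · exact (mem_filter.1 hc).1
  · intro c hc hne
    rcases mem_insert.1 hc with rfl | hc
    · exact absurd rfl hne
    · exact (mem_filter.1 hc).2.2
  · intro hc
    rcases mem_insert.1 hc with rfl | hc
    · exact hxv.ne rfl
    · exact htw (mem_filter.1 hc).2.2
  · omega
  · intro hd'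
    have := hord hd'
    omega

end Pool.Agent.OW
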