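import Pool.Agent.Lib_helper51.OW.E6
import Pool.Agent.Lib_helper53.OW.Ext2
import Pool.Agent.Lib_helper63.OW.E3

/-!
# The step in terms of `Y`, and the bootstrap without hypotheses about steps
-/

set_option autoImplicit false
set_option linter.unusedSectionVars false
set_option linter.unusedVariables false

open scoped Classical
open Finset
open Pool.Agent.O2 (PC Cb CrOn pr ms dg nd Joined addE)
open Pool.Agent.O3 (con hit)

namespace Pool.Agent.OW

variable {V : Type} {K : ℕ} {G : SimpleGraph V} {S R : Finset V} {ψ : V → Fin K}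
  {A : Finset V} {Z : Finset (Fin K)}

/-- the identity of a step in terms of `Y` -/
theorem Step.Y_eq (β : ℕ → ℤ) (h : Step G S R ψ A Z) (hne : R.Nonempty) :
    Yy G K β (R ∪ A) = Yy G K β R + Yy (con G R ψ) K β (A.disjSum Z) -
      cst K β Z.card (R.card - 1) A.card - 2 * gain G R ψ A Z := by
  have h1 := h.df_eq
  have h2 := h.card_union
  have h3 := h.card_Q
  have h4 : 0 < R.card := card_pos.2 hne
  have e1 : (R ∪ A).card - 1 = R.card - 1 + A.card := by omega
  unfold Yy cst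
  rw [e1, h3, h1]
  ring

/-- `Y` after a step -/
theorem Step.Y_le {β : ℕ → ℤ} (h : Step G S R ψ A Z) (hI : IH K β S.card)
    (hR : K + 1 ≤ R.card) :
    Yy G K β (R ∪ A) + cst K β Z.card (R.card - 1) A.card + 2 * gain G R ψ A Z ≤
      Yy G K β R := by
  have h1 := h.Y_eq β (card_pos.1 (by omega))
  have h2 := hI _ _ _ h.cr (h.Q_lt hR)
  have h3 : Yy (con G R ψ) K β (A.disjSum Z) ≤ 0 := by
    unfold Yy
    linarith
  linarith

/-- steps with gain `i` exist if `i` edges can be added -/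
theorem stp_of_ae {β : ℕ → ℤ} {i : ℕ} (hK : 0 < K) (hS : CrOn G S K) (hI : IH K β S.card)
    (hi : 2 * i ≤ K) (hA : AE G S K i) : Stp G S K β i := by
  intro R hR hne hc
  obtain ⟨ψ, h1, h2⟩ := edge_lemma (i := i) hS (fun F _ hF => hA R hR hne F hF) hi hR hne
    (by omega)
  obtain ⟨A, Z, hst⟩ := step_exists hK hS hR (card_pos.1 (by omega)) h1
  have hY := hst.Y_le hI hc
  have hcu := hst.card_union
  have hg := hst.gain_nonneg
  have e1 : (R ∪ A).card - R.card = A.card := by omega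
  refine ⟨R ∪ A, Z.card, ?_, hst.sub_union, hst.Z_pos, hst.Z_le, ?_, ?_⟩
  · refine _root_.ssubset_iff_subset_ne.2 ⟨subset_union_left, ?_⟩
    intro h
    have h3 := hst.card_lt_union
    rw [← h] at h3
    exact absurd h3 (lt_irrefl _)
  · rw [e1]
    linarith
  · intro hU hs
    obtain ⟨c, hc'⟩ := card_eq_one.1 hs
    have hAS : A = S \ R := by
      apply Subset.antisymm hst.hA
      intro v hv
      obtain ⟨h3, h4⟩ := mem_sdiff.1 hv
      rw [← hU] at h3
      rcases mem_union.1 h3 with h5 | h5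
      · exact absurd h5 h4
      · exact h5
    have h3 := gain_one G R A ψ c
    have h4 := h2 c
    rw [← hAS] at h4
    have h5 : (i : ℤ) ≤ pr G (R.filter fun r => ψ r ≠ c) A := by exact_mod_cast h4
    rw [hU, hs, hc'] at hY
    have e2 : S.card - R.card = A.card := by rw [← hU]; exact e1
    rw [e2]
    linarith

/-- the bootstrap: `i0` edges can be added and `Y` is at least `2 + L` on all proper subsets -/
theorem boot' {β : ℕ → ℤ} {i0 : ℕ} {L : ℤ} (hK : 0 < K)
    (hS : CrOn G S K) (hI : IH K β S.card)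
    (F1 : ∀ m t s : ℕ, 1 ≤ s → s ≤ K → s ≤ t →
      β m + β t + 2 ≤ β (m + t + 1 - s) + (s : ℤ) * ((K : ℤ) + 2 - s))
    (F5 : ∀ m s : ℕ, 2 ≤ s → s ≤ K → m < S.card - 1 →
      β m + β (S.card - 1 - m + s - 1) + L ≤ β (S.card - 1) + (s : ℤ) * ((K : ℤ) + 2 - s))
    (hL : 2 * (i0 : ℤ) ≤ L) (hL' : L ≤ 2 * i0 + 2) (hi : 2 * i0 ≤ K) (hY : 2 ≤ Yy G K β S) :
    AE G S K i0 ∧ ∀ R ⊆ S, R ≠ S → K + 1 ≤ R.card → 2 + L ≤ Yy G K β R :=
  boot hS hI F1 F5 hL hL' hY fun i hi' hA => stp_of_ae hK hS hI (by omega) hA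

/-- E5: `Y` is at least `4` on all proper subsets which are not cliques -/
theorem Y_ge_four {β : ℕ → ℤ} (hK : 0 < K) (hS : CrOn G S K) (hI : IH K β S.card)
    (F1 : ∀ m t s : ℕ, 1 ≤ s → s ≤ K → s ≤ t →
      β m + β t + 2 ≤ β (m + t + 1 - s) + (s : ℤ) * ((K : ℤ) + 2 - s))
    (hY : 2 ≤ Yy G K β S) :
    ∀ R ⊆ S, R ≠ S → K + 1 ≤ R.card → 4 ≤ Yy G K β R := by
  have h1 := (boot' (i0 := 0) (L := 2) hK hS hI F1 ?_ (by norm_num) (by norm_num) (by omega)
    hY).2
  · intro R hR hne hc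
    have := h1 R hR hne hc
    linarith
  · intro m s h2 h3 hm
    have h4 := F1 m (S.card - 1 - m + s - 1) s (by omega) h3 (by omega)
    have e : m + (S.card - 1 - m + s - 1) + 1 - s = S.card - 1 := by omega
    rw [e] at h4
    exact h4

end Pool.Agent.OW
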