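import Pool.Agent.Lib_helper92.OW.Defs
import Pool.Agent.Lib_helper46.O2.M5b

/-!
# Added edges

If all proper subsets of a critical set have large `Y` then `i` added edges keep them colourable.
-/

set_option autoImplicit false
set_option linter.unusedSectionVars false
set_option linter.unusedVariables false

open scoped Classical
open Finset
open Pool.Agent.O2 (PC Cb CrOn pr ms dg nd Joined addE)
open Pool.Agent.O3 (con hit)

namespace Pool.Agent.OW

variable {V : Type}

/-- the pairs of `F` which are non-edges inside `X` -/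
noncomputable def newE (G : SimpleGraph V) (F : Finset (V × V)) (X : Finset V) :
    Finset (V × V) :=
  F.filter fun p => p.1 ∈ X ∧ p.2 ∈ X ∧ p.1 ≠ p.2 ∧ ¬ G.Adj p.1 p.2

theorem newE_card_le (G : SimpleGraph V) (F : Finset (V × V)) (X : Finset V) :
    (newE G F X).card ≤ F.card := card_filter_le _ _

theorem AE.mono {G : SimpleGraph V} {S : Finset V} {K i j : ℕ} (h : AE G S K i) (hj : j ≤ i) :
    AE G S K j := fun R hR hne F hF => h R hR hne F (hF.trans hj)

/-- the added edges inside `X` -/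
theorem pr_addE_le (G : SimpleGraph V) (F : Finset (V × V)) (X : Finset V) :
    pr (addE G F) X X ≤ pr G X X + 2 * (newE G F X).card := by
  have h1 : ((X ×ˢ X).filter fun p => (addE G F).Adj p.1 p.2) ⊆
      ((X ×ˢ X).filter fun p => G.Adj p.1 p.2) ∪
        (newE G F X ∪ (newE G F X).image Prod.swap) := by
    intro p hp
    obtain ⟨h2, h3⟩ := mem_filter.1 hp
    by_cases hG : G.Adj p.1 p.2
    · exact mem_union_left _ (mem_filter.2 ⟨h2, hG⟩)
    · obtain ⟨ha, hb⟩ := mem_product.1 h2
      rcases h3 with h3 | ⟨hne, h3 | h3⟩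
      · exact absurd h3 hG
      · exact mem_union_right _ (mem_union_left _ (mem_filter.2 ⟨h3, ha, hb, hne, hG⟩))
      · exact mem_union_right _ (mem_union_right _ (mem_image.2
          ⟨(p.2, p.1), mem_filter.2 ⟨h3, hb, ha, hne.symm, fun h => hG h.symm⟩, rfl⟩))
  have h2 : (newE G F X ∪ (newE G F X).image Prod.swap).card ≤ 2 * (newE G F X).card := by
    have h3 := card_union_le (newE G F X) ((newE G F X).image Prod.swap)
    have h4 : ((newE G F X).image Prod.swap).card ≤ (newE G F X).card := card_image_le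
    omega
  have h3 := card_le_card h1
  have h4 := card_union_le ((X ×ˢ X).filter fun p => G.Adj p.1 p.2)
    (newE G F X ∪ (newE G F X).image Prod.swap)
  unfold pr
  omega

/-- a critical set of the graph with added edges, inside a proper subset of a critical set -/
theorem addE_crit {K : ℕ} {G : SimpleGraph V} {S R : Finset V} {F : Finset (V × V)}
    (hS : CrOn G S K) (hR : R ⊆ S) (hne : R ≠ S) (hF : ¬ Cb (addE G F) R K) :
    ∃ X ⊆ R, CrOn (addE G F) X K ∧ K + 1 ≤ X.card ∧ X.card < S.card ∧ (newE G F X).Nonempty := by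
  obtain ⟨X, hX, hcr⟩ := Pool.Agent.O2.exists_crOn hF
  have h1 : X ⊆ S := hX.trans hR
  have h2 : X.card < S.card := by
    have h3 : X.card ≤ R.card := card_le_card hX
    have h4 : R.card < S.card := card_lt_card (hR.ssubset_of_ne hne)
    omega
  refine ⟨X, hX, hcr, hcr.card_ge, h2, ?_⟩
  rw [nonempty_iff_ne_empty]
  intro h0
  apply hcr.1
  have h5 : Cb G X K := by
    apply hS.sub h1
    rintro rfl
    exact absurd h2 (lt_irrefl _)
  apply Pool.Agent.O2.M5b_cb _ h5
  intro a ha b hb hab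
  rcases hab with hab | ⟨hn, hab⟩
  · exact hab
  · by_contra hG
    rcases hab with hab | hab
    · exact notMem_empty (a, b) (h0 ▸ mem_filter.2 ⟨hab, ha, hb, hn, hG⟩)
    · exact notMem_empty (b, a) (h0 ▸ mem_filter.2 ⟨hab, hb, ha, hn.symm, fun h => hG h.symm⟩)

/-- the value of `Y` on a critical set of the graph with added edges -/
theorem addE_Y {β : ℕ → ℤ} {K : ℕ} {G : SimpleGraph V} {S X : Finset V} {F : Finset (V × V)}
    (hI : IH K β S.card) (hcr : CrOn (addE G F) X K) (hlt : X.card < S.card) :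
    Yy G K β X ≤ 2 * (newE G F X).card := by
  have h1 := hI V (addE G F) X hcr hlt
  have h2 : (pr (addE G F) X X : ℤ) ≤ pr G X X + 2 * (newE G F X).card := by
    exact_mod_cast pr_addE_le G F X
  unfold Yy
  unfold df at h1 ⊢
  linarith

/-- the sharp form: a critical set of the graph with added edges has small `Y` -/
theorem addE_small {β : ℕ → ℤ} {K : ℕ} {G : SimpleGraph V} {S R : Finset V} {F : Finset (V × V)}
    (hS : CrOn G S K) (hI : IH K β S.card) (hR : R ⊆ S) (hne : R ≠ S)
    (hF : ¬ Cb (addE G F) R K) :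
    ∃ X ⊆ R, CrOn (addE G F) X K ∧ K + 1 ≤ X.card ∧ X.card < S.card ∧
      (newE G F X).Nonempty ∧ Yy G K β X ≤ 2 * (newE G F X).card := by
  obtain ⟨X, h1, h2, h3, h4, h5⟩ := addE_crit hS hR hne hF
  exact ⟨X, h1, h2, h3, h4, h5, addE_Y hI h2 h4⟩

/-- if all proper subsets have large `Y` then `i` edges can be added -/
theorem ae_of_Y {β : ℕ → ℤ} {K i : ℕ} {G : SimpleGraph V} {S : Finset V}
    (hS : CrOn G S K) (hI : IH K β S.card)
    (hY : ∀ X ⊆ S, X ≠ S → K + 1 ≤ X.card → 2 * (i : ℤ) + 1 ≤ Yy G K β X) : AE G S K i := by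
  intro R hR hne F hF
  by_contra h
  obtain ⟨X, h1, h2, h3, h4, h5, h6⟩ := addE_small hS hI hR hne h
  have h7 : X ≠ S := by
    rintro rfl
    exact absurd h4 (lt_irrefl _)
  have h8 := hY X (h1.trans hR) h7 h3
  have h9 : ((newE G F X).card : ℤ) ≤ i := by exact_mod_cast (newE_card_le G F X).trans hF
  linarith

theorem ae_zero {K : ℕ} {G : SimpleGraph V} {S : Finset V} (hS : CrOn G S K) : AE G S K 0 := by
  intro R hR hne F hF
  have h0 : F = ∅ := by simpa using hF
  subst h0
  apply Pool.Agent.O2.M5b_cb _ (hS.sub hR hne)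
  intro a _ b _ hab
  rcases hab with hab | ⟨-, hab | hab⟩
  · exact hab
  · exact absurd hab (notMem_empty _)
  · exact absurd hab (notMem_empty _)

/-- the colouring obtained from added edges -/
theorem AE.pc {G : SimpleGraph V} {S : Finset V} {K i : ℕ} (h : AE G S K i) (hK : 0 < K)
    {R : Finset V} (hR : R ⊆ S) (hne : R ≠ S) {F : Finset (V × V)} (hF : F.card ≤ i) :
    ∃ ψ : V → Fin K, PC G R ψ ∧ ∀ a ∈ R, ∀ b ∈ R, a ≠ b → (a, b) ∈ F → ψ a ≠ ψ b := by
  obtain ⟨ψ, hψ⟩ := (Pool.Agent.O2.cb_fin hK).1 (h R hR hne F hF)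
  exact ⟨ψ, fun a ha b hb hab => hψ a ha b hb (Or.inl hab),
    fun a ha b hb hne hab => hψ a ha b hb (Or.inr ⟨hne, Or.inl hab⟩)⟩

end Pool.Agent.OW
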