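import Pool.Agent.Lib_helper51.OW.E3
import Pool.Agent.Lib_helper53.OW.Ext2

/-!
# The bootstrap: more and more edges can be added

The proper subset with the least `Y` is extended in one step to the whole critical set.
-/

set_option autoImplicit false
set_option linter.unusedSectionVars false
set_option linter.unusedVariables false

open scoped Classical
open Finset
open Pool.Agent.O2 (PC Cb CrOn pr ms dg nd Joined addE)
open Pool.Agent.O3 (con hit)

namespace Pool.Agent.OW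

variable {V : Type}

/-- every proper subset can be extended, with gain `i` in the last step if `s = 1` -/
def Stp (G : SimpleGraph V) (S : Finset V) (K : ℕ) (β : ℕ → ℤ) (i : ℕ) : Prop :=
  ∀ R ⊆ S, R ≠ S → K + 1 ≤ R.card → ∃ (U : Finset V) (s : ℕ), R ⊂ U ∧ U ⊆ S ∧ 1 ≤ s ∧ s ≤ K ∧
    Yy G K β U + cst K β s (R.card - 1) (U.card - R.card) ≤ Yy G K β R ∧
    (U = S → s = 1 → Yy G K β S + cst K β 1 (R.card - 1) (S.card - R.card) + 2 * i ≤ Yy G K β R)

theorem cst_ge {K : ℕ} {β : ℕ → ℤ}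
    (F1 : ∀ m t s : ℕ, 1 ≤ s → s ≤ K → s ≤ t →
      β m + β t + 2 ≤ β (m + t + 1 - s) + (s : ℤ) * ((K : ℤ) + 2 - s))
    {s m a : ℕ} (h1 : 1 ≤ s) (h2 : s ≤ K) (ha : 1 ≤ a) : 2 ≤ cst K β s m a := by
  have h := F1 m (a + s - 1) s h1 h2 (by omega)
  have e : m + (a + s - 1) + 1 - s = m + a := by omega
  rw [e] at h
  unfold cst
  linarith

/-- one round: the least `Y` of a proper subset -/
theorem boot_round {K : ℕ} {β : ℕ → ℤ} {G : SimpleGraph V} {S : Finset V} {i : ℕ} {L : ℤ}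
    (F1 : ∀ m t s : ℕ, 1 ≤ s → s ≤ K → s ≤ t →
      β m + β t + 2 ≤ β (m + t + 1 - s) + (s : ℤ) * ((K : ℤ) + 2 - s))
    (F5 : ∀ m s : ℕ, 2 ≤ s → s ≤ K → m < S.card - 1 →
      β m + β (S.card - 1 - m + s - 1) + L ≤ β (S.card - 1) + (s : ℤ) * ((K : ℤ) + 2 - s))
    (hY : 2 ≤ Yy G K β S) (hst : Stp G S K β i) :
    ∀ R ⊆ S, R ≠ S → K + 1 ≤ R.card → min (4 + 2 * (i : ℤ)) (2 + L) ≤ Yy G K β R := by
  -- the minimiser
  by_contra hcon
  push Not at hcon
  obtain ⟨R0, hR0, hne0, hc0, hy0⟩ := hcon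
  let P := S.powerset.filter fun R => R ≠ S ∧ K + 1 ≤ R.card
  have hP0 : R0 ∈ P := mem_filter.2 ⟨mem_powerset.2 hR0, hne0, hc0⟩
  obtain ⟨R, hRP, hmin⟩ := exists_min_image P (fun R => Yy G K β R) ⟨R0, hP0⟩
  obtain ⟨hRS, hne, hc⟩ := mem_filter.1 hRP
  rw [mem_powerset] at hRS
  have hyR : Yy G K β R < min (4 + 2 * (i : ℤ)) (2 + L) := lt_of_le_of_lt (hmin R0 hP0) hy0
  obtain ⟨U, s, hRU, hUS, hs1, hsK, hst1, hst2⟩ := hst R hRS hne hc
  have hUR : R.card < U.card := card_lt_card hRU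
  have hK1 : 2 ≤ cst K β s (R.card - 1) (U.card - R.card) := cst_ge F1 hs1 hsK (by omega)
  by_cases hU : U = S
  · subst hU
    by_cases hs : s = 1
    · have h1 := hst2 rfl hs
      subst hs
      have h2 := min_le_left (4 + 2 * (i : ℤ)) (2 + L)
      linarith
    · have h3 := F5 (R.card - 1) s (by omega) hsK (by omega)
      have e1 : U.card - 1 - (R.card - 1) + s - 1 = U.card - R.card + s - 1 := by omega
      have e2 : R.card - 1 + (U.card - R.card) = U.card - 1 := by omega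
      rw [e1] at h3
      unfold cst at hst1
      rw [e2] at hst1
      have h2 := min_le_right (4 + 2 * (i : ℤ)) (2 + L)
      linarith
  · have h1 : U ∈ P := by
      refine mem_filter.2 ⟨mem_powerset.2 hUS, hU, ?_⟩
      omega
    have h2 := hmin U h1
    linarith

/-- the bootstrap -/
theorem boot {K : ℕ} {β : ℕ → ℤ} {G : SimpleGraph V} {S : Finset V} {i0 : ℕ} {L : ℤ}
    (hS : CrOn G S K) (hI : IH K β S.card)
    (F1 : ∀ m t s : ℕ, 1 ≤ s → s ≤ K → s ≤ t →
      β m + β t + 2 ≤ β (m + t + 1 - s) + (s : ℤ) * ((K : ℤ) + 2 - s))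
    (F5 : ∀ m s : ℕ, 2 ≤ s → s ≤ K → m < S.card - 1 →
      β m + β (S.card - 1 - m + s - 1) + L ≤ β (S.card - 1) + (s : ℤ) * ((K : ℤ) + 2 - s))
    (hL : 2 * (i0 : ℤ) ≤ L) (hL' : L ≤ 2 * i0 + 2) (hY : 2 ≤ Yy G K β S)
    (hst : ∀ i ≤ i0, AE G S K i → Stp G S K β i) :
    AE G S K i0 ∧ ∀ R ⊆ S, R ≠ S → K + 1 ≤ R.card → 2 + L ≤ Yy G K β R := by
  have key : ∀ i ≤ i0, AE G S K i := by
    intro i
    induction i with
    | zero => exact fun _ => ae_zero hS
    | succ j ih =>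
      intro hj
      have h1 := ih (by omega)
      apply ae_of_Y hS hI
      intro X hX hne hc
      have h2 := boot_round F1 F5 hY (hst j (by omega) h1) X hX hne hc
      have h3 : (j : ℤ) + 1 ≤ i0 := by exact_mod_cast hj
      have h4 : 2 * ((j + 1 : ℕ) : ℤ) + 1 ≤ min (4 + 2 * (j : ℤ)) (2 + L) := by
        rw [le_min_iff]
        push_cast
        constructor <;> linarith
      linarith
  refine ⟨key i0 le_rfl, ?_⟩
  intro R hR hne hc
  have h2 := boot_round F1 F5 hY (hst i0 le_rfl (key i0 le_rfl)) R hR hne hc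
  have h3 : 2 + L ≤ min (4 + 2 * (i0 : ℤ)) (2 + L) := by
    rw [le_min_iff]
    constructor <;> linarith
  linarith

end Pool.Agent.OW
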